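import Pool.Agent.Work.MP_dd0d16_nt.T.Defs

/-!
Definitions used in the statement about sums of roots of unity with varying coefficients.
-/

set_option autoImplicit false

namespace Pool.Agent.Work.MP_dd0d16_nt.T

variable {p : ℕ} [Fact p.Prime]

/-- The maximal unramified extension. -/
noncomputable def Unr (p : ℕ) [Fact p.Prime] : IntermediateField ℚ_[p] (PadicAlgCl p) :=
  IntermediateField.adjoin ℚ_[p] {z : PadicAlgCl p | Root z}

/-- `a` is a root of a nonzero polynomial of degree at most `B` with coefficients in `Comb K B`. -/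
def Alg (K : Set (PadicAlgCl p)) (B : ℕ) (a : PadicAlgCl p) : Prop :=
  ∃ f : Fin (B + 1) → PadicAlgCl p, f ≠ 0 ∧ (∀ i, Comb K B (f i)) ∧ ∑ i, f i * a ^ (i : ℕ) = 0

/-- The nonzero subsums of the sums `∑ j, t k j * z k j` in which all ratios `z k j / z k j'` have
order at most `N`. -/
def Clus {I J : Type} (N : ℕ) (t z : I → J → PadicAlgCl p) : Set (PadicAlgCl p) :=
  {y | y ≠ 0 ∧ ∃ (k : I) (S : Finset J), (∀ j ∈ S, ∀ j' ∈ S, orderOf (z k j / z k j') ≤ N) ∧
    y = ∑ j ∈ S, t k j * z k j}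

end Pool.Agent.Work.MP_dd0d16_nt.T
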