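import Pool.Agent.Work.MP_dd0d16_nt.S.Seq2
import Pool.Agent.Work.MP_dd0d16_nt.T.Final

/-!
The compactness argument.
-/

set_option autoImplicit false

namespace Pool.Agent.Work.MP_dd0d16_nt.T

open Filter

variable {p : ℕ} [Fact p.Prime] {L : PadicAlgCl p → PadicAlgCl p}

theorem Alg.alg' {K : IntermediateField ℚ_[p] (PadicAlgCl p)} {B : ℕ} {a : PadicAlgCl p}
    (h : Alg K B a) : ∃ z : Fin (B + 1) × Fin B → PadicAlgCl p, (∀ q, Root (z q)) ∧
      ∀ {J : Type} (ζ : J → PadicAlgCl p), (∀ q, z q ∈ Set.range ζ) → Alg' K B ζ a := by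
  obtain ⟨f, h0, h1, h2⟩ := h
  choose t z hz e using h1
  refine ⟨fun q => z q.1 q.2, fun q => (hz _ _).2, fun ζ hζ => ⟨f, h0, fun i => ?_, h2⟩⟩
  rw [e]
  exact Submodule.sum_mem _ fun l _ => Submodule.smul_mem _ (⟨_, (hz i l).1⟩ : K)
    (Submodule.subset_span (hζ (i, l)))

theorem final2 (hL : IsLog L) (K1 : IntermediateField ℚ_[p] (PadicAlgCl p))
    [FiniteDimensional ℚ_[p] K1] (n B : ℕ) :
    ∃ N : ℕ, ∀ K : IntermediateField ℚ_[p] (PadicAlgCl p), Module.rank ℚ_[p] ↥(K ⊓ Unr p) ≤ B →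
      ∀ (t z : Fin n → Fin B → PadicAlgCl p) (a : Fin 2 → Fin 2 → PadicAlgCl p)
        (c : Fin 2 → Fin 2 → Fin n → PadicAlgCl p), (∀ k j, t k j ∈ K1 ∧ Root (z k j)) →
        (∀ k, ∑ j, t k j * z k j ≠ 0) → (∀ i j, IsAlgebraic ℚ (a i j) ∧ Alg K B (a i j)) →
        (∀ i j k, IsAlgebraic ℚ (c i j k) ∧ Alg K B (c i j k)) →
        FourExp (Matrix.of fun i j => a i j + ∑ k, c i j k * L (∑ l, t k l * z k l)) ∨
          ∀ i j, a i j + ∑ k, c i j k * L (∑ l, t k l * z k l) ∈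
            Submodule.span (algebraicClosure ℚ (PadicAlgCl p)) (insert 1 (L '' Clus N t z)) := by
  classical
  by_contra hh
  simp only [not_exists, not_forall, not_or] at hh
  choose K hK t z a c hz hx ha hc h1 h2 using hh
  choose za hza ea using fun m i j => (ha m i j).2.alg'
  choose zc hzc ec using fun m i j k => (hc m i j k).2.alg'
  let Q := Fin (B + 1) × Fin B
  let ζ : ℕ → (Fin n × Fin B) ⊕ (Fin 2 × Fin 2 × Q) ⊕ (Fin 2 × Fin 2 × Fin n × Q) →
      PadicAlgCl p := fun m => Sum.elim (fun q => z m q.1 q.2) (Sum.elim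
        (fun q => za m q.1 q.2.1 q.2.2) fun q => zc m q.1 q.2.1 q.2.2.1 q.2.2.2)
  let b : ℕ → Fin n → (Fin n × Fin B) ⊕ (Fin 2 × Fin 2 × Q) ⊕ (Fin 2 × Fin 2 × Fin n × Q) →
      PadicAlgCl p := fun m k => Sum.elim (fun q => if q.1 = k then t m k q.2 else 0) 0
  have e : ∀ m k, ∑ i, b m k i * ζ m i = ∑ l, t m k l * z m k l := fun m k => by
    simp [b, ζ, Fintype.sum_prod_type]
  obtain ⟨N, h⟩ := seq2 hL (Ultrafilter.of atTop) ζ
    (by rintro m (q | q | q); exacts [(hz _ _ _).2, hza _ _ _ _, hzc _ _ _ _ _]) K1 b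
    (by
      rintro m k (q | q)
      · simp only [b, Sum.elim_inl]
        split_ifs
        exacts [(hz _ _ _).1, zero_mem _]
      · exact zero_mem _)
    (fun m k => e m k ▸ hx m k) B K hK a c
    (fun m i j => ⟨(ha m i j).1, ea m i j _ fun q => ⟨.inr (.inl (i, j, q)), rfl⟩⟩)
    (fun m i j k => ⟨(hc m i j k).1, ec m i j k _ fun q => ⟨.inr (.inr (i, j, k, q)), rfl⟩⟩)
    (fun m i j => a m i j + ∑ k, c m i j k * L (∑ l, t m k l * z m k l))
    (fun m i j => by simp only [e]) fun m => det_of_not (h1 m)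
  obtain ⟨m, h3, h4⟩ := (h.and ((Ultrafilter.of_le atTop) (eventually_ge_atTop N))).exists
  rcases h3 with h3 | h3
  · exact h1 m (fourExp_of_dep h3)
  · obtain ⟨i, j, h5⟩ := h2 m
    refine h5 (Submodule.span_mono (Set.insert_subset_insert (Set.image_mono ?_)) (h3 i j))
    rintro y ⟨h6, k, S, h7, rfl⟩
    refine ⟨h6, k, Finset.univ.filter fun l => Sum.inl (k, l) ∈ S, fun l hl l' hl' =>
      (h7 _ (Finset.mem_filter.1 hl).2 _ (Finset.mem_filter.1 hl').2).trans h4, ?_⟩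
    rw [← Finset.sum_ite_mem_eq S, Finset.sum_filter]
    simp only [b, ζ, Fintype.sum_sum_type, Sum.elim_inl, Sum.elim_inr, Pi.zero_apply, zero_mul,
      ite_self, Finset.sum_const_zero, add_zero, Fintype.sum_prod_type]
    rw [Finset.sum_eq_single k]
    · simp
    · intro k' _ hk
      simp [hk]
    · simp

end Pool.Agent.Work.MP_dd0d16_nt.T
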